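import Pool.Agent.KS6_96.Bd.NonTors
import Pool.Agent.KS6_96.Bd.Exists

/-!
# Coinvariants of the top homology of the stable building: all primes

The definitions of lattices, of the reduced total complex of the `k`-fold simplicial pointed set
`D^k(M)`, of `H_i(𝐃(M))` and of its coinvariants are in `Pool/Agent/KS6_96/Bd/SB.lean`.
-/

namespace Pool.Agent.Results.MP_89c978_gt.AllPrimes

open Pool.Agent.KS6_96.Bd Pool.Agent.KS6_96.Bd.SB

/-- For every prime `p ≥ 11`, `p ≠ 13`, the ring `R = ℤ[1/p]` is a Euclidean domain and, for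
`n = 2`, the group of coinvariants of `GL_n(R)` on `H_{2n-2}(𝐃(R^n))` contains an element of
infinite order. -/
theorem result (p : ℕ) (hp : p.Prime) (h11 : 11 ≤ p) (h13 : p ≠ 13) :
    ∃ (R : Type) (_ : EuclideanDomain R), Nonempty (R ≃+* Localization.Away (p : ℤ)) ∧
      ∃ x : Coinvariants R (Fin 2 → R) (2 * 2 - 2), ∀ N : ℤ, N ≠ 0 → N • x ≠ 0 := by
  have : Fact p.Prime := ⟨hp⟩
  let _ : EuclideanDomain (Zp p) := euclideanZp p
  have h24 : ¬ (p - 1) ∣ 24 := by
    intro h
    have hle : p - 1 ≤ 24 := Nat.le_of_dvd (by norm_num) h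
    have hle' : p ≤ 25 := by omega
    interval_cases p <;> revert hp h h13 <;> decide
  obtain ⟨F, hF, x, hx, hne⟩ := exists_potW h24
  exact ⟨Zp p, euclideanZp p, ⟨RingEquiv.refl _⟩, exists_nontorsion hF isZp_euclidean hx hne⟩

end Pool.Agent.Results.MP_89c978_gt.AllPrimes
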